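import Pool.Agent.Y817.PD.Stm

/-! PD-UPPER: codes closed under idempotent operations without abelian subalgebras. -/

set_option autoImplicit false

namespace Pool.Agent.Y220.PD

open Pool.Agent.Y817.PD

section terms

variable {S : Sig} {A : Type}

theorem eval_prod {ι V : Type} (F : ι → Alg S A) (Z : V → ι → A) (t : Term S V) (i : ι) :
    t.eval (prodAlg F) Z i = t.eval (F i) (fun v => Z v i) := by
  induction t with
  | var v => rfl
  | app j t ih =>
    simp only [Term.eval, prodAlg]
    congr 1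
    funext l
    exact ih l

theorem eval_closed {V : Type} (F : Alg S A) {U : Set A} (hU : Closed F U) (x : V → A)
    (hx : ∀ v, x v ∈ U) (t : Term S V) : t.eval F x ∈ U := by
  induction t with
  | var v => exact hx v
  | app j t ih => exact hU j _ ih

theorem eval_const {V : Type} (F : Alg S A) (hI : Idem F) (a : A) (t : Term S V) :
    t.eval F (fun _ => a) = a := by
  induction t with
  | var v => rfl
  | app j t ih =>
    simp only [Term.eval, ih]
    exact hI j a

end terms

section chain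

variable {A : Type} {n : ℕ}

/-- two words of the code with a common letter in `D` -/
def rr (C : Finset (Fin n → A)) (D : Finset (Fin n)) (x y : Fin n → A) : Prop :=
  x ∈ C ∧ y ∈ C ∧ ∃ i ∈ D, x i = y i

/-- the generated relation -/
def mu (C : Finset (Fin n → A)) (D : Finset (Fin n)) (x y : Fin n → A) : Prop :=
  Relation.ReflTransGen (rr C D) x y

theorem mu_symm {C : Finset (Fin n → A)} {D : Finset (Fin n)} {x y : Fin n → A}
    (h : mu C D x y) : mu C D y x := by
  induction h with
  | refl => exact Relation.ReflTransGen.refl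
  | tail _ hbc ih =>
    obtain ⟨h1, h2, i, hi, h3⟩ := hbc
    exact Relation.ReflTransGen.head ⟨h2, h1, i, hi, h3.symm⟩ ih

theorem mu_trans {C : Finset (Fin n → A)} {D : Finset (Fin n)} {x y z : Fin n → A}
    (h : mu C D x y) (h' : mu C D y z) : mu C D x z := Relation.ReflTransGen.trans h h'

/-- the chain lemma -/
theorem chain {C : Finset (Fin n → A)} {D : Finset (Fin n)} (hD : D.Nonempty) {V : Type} [Finite V]
    (P : (V → Fin n → A) → Prop)
    (hP : ∀ w w' : V → Fin n → A, (∀ v, w v ∈ C) → (∀ v, w' v ∈ C) →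
      (∃ i ∈ D, ∀ v, w v i = w' v i) → P w → P w')
    (w w' : V → Fin n → A) (hw : ∀ v, w v ∈ C) (hw' : ∀ v, w' v ∈ C)
    (h : ∀ v, mu C D (w v) (w' v)) (h1 : P w) : P w' := by
  classical
  have := Fintype.ofFinite V
  have step : ∀ (w : V → Fin n → A) (v0 : V) (y : Fin n → A), (∀ v, w v ∈ C) → y ∈ C →
      mu C D (w v0) y → P w → P (Function.update w v0 y) := by
    intro w v0 y hw hy hmu hPw
    have key : ∀ y, mu C D (w v0) y → y ∈ C ∧ P (Function.update w v0 y) := by
      intro y hmu
      induction hmu with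
      | refl => exact ⟨hw v0, by rwa [Function.update_eq_self]⟩
      | tail _ hbc ih =>
        obtain ⟨h2, h3, i, hi, h4⟩ := hbc
        refine ⟨h3, hP _ _ ?_ ?_ ⟨i, hi, ?_⟩ ih.2⟩
        · intro v
          by_cases hv : v = v0
          · rw [hv, Function.update_self]; exact h2
          · rw [Function.update_of_ne hv]; exact hw v
        · intro v
          by_cases hv : v = v0
          · rw [hv, Function.update_self]; exact h3
          · rw [Function.update_of_ne hv]; exact hw v
        · intro v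
          by_cases hv : v = v0
          · rw [hv, Function.update_self, Function.update_self]; exact h4
          · rw [Function.update_of_ne hv, Function.update_of_ne hv]
    exact (key y hmu).2
  have main : ∀ s : Finset V, P (fun v => if v ∈ s then w' v else w v) := by
    intro s
    induction s using Finset.induction_on with
    | empty => simpa using h1
    | insert a s ha ih =>
      have h2 := step (fun v => if v ∈ s then w' v else w v) a (w' a) (fun v => by
        split_ifs
        · exact hw' v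
        · exact hw v) (hw' a) (by
        rw [if_neg ha]
        exact h a) ih
      have h3 : Function.update (fun v => if v ∈ s then w' v else w v) a (w' a) =
          fun v => if v ∈ insert a s then w' v else w v := by
        funext v
        by_cases hv : v = a
        · rw [hv, Function.update_self, if_pos (Finset.mem_insert_self a s)]
        · rw [Function.update_of_ne hv]
          simp only [Finset.mem_insert, hv, false_or]
      rwa [h3] at h2
  have h2 := main Finset.univ
  simpa using h2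

end chain

section core

variable {S : Sig} {A : Type} [DecidableEq A] {n : ℕ}

/-- the set of differences -/
def dif (x y : Fin n → A) : Finset (Fin n) := Finset.univ.filter fun i => x i ≠ y i

theorem mem_dif {x y : Fin n → A} {i : Fin n} : i ∈ dif x y ↔ x i ≠ y i := by
  unfold dif
  rw [Finset.mem_filter]
  simp

variable {F : Fin n → Alg S A} {C : Finset (Fin n → A)} {D : Finset (Fin n)}

/-- words which agree off `D` and at one point of `D` are equal -/
theorem eq_of_agree (hmin : ∀ x ∈ C, ∀ y ∈ C, x ≠ y → dif x y ⊆ D → dif x y = D)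
    {p q : Fin n → A} (hp : p ∈ C) (hq : q ∈ C) (h : ∀ i, i ∉ D → p i = q i)
    {i : Fin n} (hi : i ∈ D) (hpq : p i = q i) : p = q := by
  by_contra hne
  have h1 : dif p q ⊆ D := by
    intro l hl
    by_contra hlD
    exact (mem_dif.1 hl) (h l hlD)
  have h2 := hmin p hp q hq hne h1
  rw [← h2] at hi
  exact (mem_dif.1 hi) hpq

/-- the relation is not total -/
theorem not_total (hI : ∀ i, Idem (F i))
    (hC : Closed (prodAlg F) (C : Set (Fin n → A)))
    (hmin : ∀ x ∈ C, ∀ y ∈ C, x ≠ y → dif x y ⊆ D → dif x y = D)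
    {u v : Fin n → A} (hu : u ∈ C) (hv : v ∈ C) (huv : dif u v = D) {i0 : Fin n} (hi0 : i0 ∈ D)
    (hab : ∀ U : Set A, Closed (F i0) U → U.Nontrivial → ¬ Abelian (F i0) U) :
    ∃ x ∈ C, ∃ y ∈ C, ¬ mu C D x y := by
  classical
  by_contra htot
  push Not at htot
  let U : Set A := {a | ∃ y ∈ C, (∀ i, i ∉ D → y i = u i) ∧ y i0 = a}
  refine hab U ?_ ?_ ?_
  · intro j x hx
    choose y hy1 hy2 hy3 using hx
    refine ⟨prodAlg F j y, hC j y (fun l => hy1 l), fun i hi => ?_, ?_⟩
    · have h1 : (fun l => y l i) = fun _ => u i := funext fun l => hy2 l i hi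
      change F i j (fun l => y l i) = u i
      rw [h1]
      exact hI i j (u i)
    · change F i0 j (fun l => y l i0) = F i0 j x
      congr 1
      funext l
      exact hy3 l
  · refine ⟨u i0, ⟨u, hu, fun i _ => rfl, rfl⟩, v i0, ⟨v, hv, fun i hi => ?_, rfl⟩, ?_⟩
    · rw [← huv, mem_dif, not_not] at hi
      exact hi.symm
    · rw [← huv, mem_dif] at hi0
      exact hi0
  · intro V W _ _ t x x' y y' hx hx' hy hy' h
    choose X hX1 hX2 hX3 using hx
    choose X' hX1' hX2' hX3' using hx'
    choose Y hY1 hY2 hY3 using hy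
    choose Y' hY1' hY2' hY3' using hy'
    have hcl : ∀ (w : V → Fin n → A) (Z : W → Fin n → A), (∀ v, w v ∈ C) → (∀ v, Z v ∈ C) →
        t.eval (prodAlg F) (Sum.elim w Z) ∈ C := by
      intro w Z hw hZ
      refine eval_closed (prodAlg F) hC (Sum.elim w Z) (fun v => ?_) t
      cases v with
      | inl v => exact hw v
      | inr v => exact hZ v
    have hcomp : ∀ (w : V → Fin n → A) (Z : W → Fin n → A) (i : Fin n),
        t.eval (prodAlg F) (Sum.elim w Z) i =
          t.eval (F i) (Sum.elim (fun v => w v i) (fun v => Z v i)) := by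
      intro w Z i
      rw [eval_prod]
      congr 1
      funext v
      cases v <;> rfl
    have hoff : ∀ (w : V → Fin n → A) (i : Fin n), i ∉ D →
        t.eval (prodAlg F) (Sum.elim w Y) i = t.eval (prodAlg F) (Sum.elim w Y') i := by
      intro w i hi
      rw [hcomp, hcomp]
      have h1 : (fun v => Y v i) = fun v => Y' v i :=
        funext fun v => (hY2 v i hi).trans (hY2' v i hi).symm
      rw [h1]
    have e1 : ∀ {V : Type} (X : V → Fin n → A) (x : V → A), (∀ v, X v i0 = x v) →
        (fun v => X v i0) = x := fun X x hX => funext hX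
    have hPX : t.eval (prodAlg F) (Sum.elim X Y) = t.eval (prodAlg F) (Sum.elim X Y') := by
      refine eq_of_agree hmin (hcl X Y hX1 hY1) (hcl X Y' hX1 hY1') (hoff X) hi0 ?_
      rw [hcomp, hcomp, e1 X x hX3, e1 Y y hY3, e1 Y' y' hY3']
      exact h
    have hPX' := chain ⟨i0, hi0⟩
      (fun w : V → Fin n → A => t.eval (prodAlg F) (Sum.elim w Y) =
        t.eval (prodAlg F) (Sum.elim w Y')) (fun w w' hw hw' hww hPw => by
        obtain ⟨i, hi, hag⟩ := hww
        refine eq_of_agree hmin (hcl w' Y hw' hY1) (hcl w' Y' hw' hY1') (hoff w') hi ?_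
        have h1 := congrFun hPw i
        rw [hcomp, hcomp] at h1 ⊢
        have h2 : (fun v => w v i) = fun v => w' v i := funext hag
        rw [h2] at h1
        exact h1) X X' hX1 hX1' (fun v => htot _ (hX1 v) _ (hX1' v)) hPX
    have h1 := congrFun hPX' i0
    rw [hcomp, hcomp, e1 X' x' hX3', e1 Y y hY3, e1 Y' y' hY3'] at h1
    exact h1

open scoped Classical in
/-- the class of a word -/
noncomputable def cls (C : Finset (Fin n → A)) (D : Finset (Fin n)) (z : Fin n → A) :
    Finset (Fin n → A) := C.filter fun y => mu C D z y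

theorem mem_cls {z y : Fin n → A} : y ∈ cls C D z ↔ y ∈ C ∧ mu C D z y := by
  classical
  unfold cls
  exact Finset.mem_filter

theorem cls_eq {z y : Fin n → A} (h : mu C D z y) : cls C D z = cls C D y := by
  ext x
  rw [mem_cls, mem_cls]
  exact ⟨fun hx => ⟨hx.1, mu_trans (mu_symm h) hx.2⟩, fun hx => ⟨hx.1, mu_trans h hx.2⟩⟩

/-- the classes are closed -/
theorem cls_closed (hI : ∀ i, Idem (F i)) (hD : D.Nonempty)
    (hC : Closed (prodAlg F) (C : Set (Fin n → A))) {z : Fin n → A} (hz : z ∈ C) :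
    Closed (prodAlg F) ((cls C D z : Finset (Fin n → A)) : Set (Fin n → A)) := by
  intro j w hw
  have hw' : ∀ l, w l ∈ C ∧ mu C D z (w l) := fun l => mem_cls.1 (hw l)
  have h1 : prodAlg F j w ∈ C := hC j w fun l => (hw' l).1
  refine mem_cls.2 ⟨h1, ?_⟩
  refine chain hD (fun w => mu C D z (prodAlg F j w)) (fun w w' hw hw' hww hPw => ?_)
    (fun _ => z) w (fun _ => hz) (fun l => (hw' l).1) (fun l => (hw' l).2) ?_
  · obtain ⟨i, hi, hag⟩ := hww
    refine mu_trans hPw (Relation.ReflTransGen.single ⟨hC j w hw, hC j w' hw', i, hi, ?_⟩)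
    change F i j (fun l => w l i) = F i j (fun l => w' l i)
    congr 1
    funext l
    exact hag l
  · have h2 : prodAlg F j (fun _ => z) = z := by
      funext i
      exact hI i j (z i)
    rw [h2]
    exact Relation.ReflTransGen.refl

end core

section count

variable {A : Type} [DecidableEq A] {n : ℕ}

/-- the letters at the coordinate `i` -/
def pr (C : Finset (Fin n → A)) (i : Fin n) : Finset A := C.image fun x => x i

/-- the product of the numbers of letters -/
def PP (C : Finset (Fin n → A)) : ℕ := ∏ i, (pr C i).card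

theorem pr_pos {C : Finset (Fin n → A)} (hC : C.Nonempty) (i : Fin n) : 0 < (pr C i).card :=
  Finset.card_pos.2 (hC.image _)

theorem PP_pos {C : Finset (Fin n → A)} (hC : C.Nonempty) : 0 < PP C :=
  Finset.prod_pos fun i _ => pr_pos hC i

theorem pr_mono {C C' : Finset (Fin n → A)} (h : C ⊆ C') (i : Fin n) : pr C i ⊆ pr C' i :=
  Finset.image_subset_image h

/-- the analytic estimate -/
theorem sum_est {ι : Type} (s : Finset ι) (K : ι → Finset (Fin n → A)) (C : Finset (Fin n → A))
    (hC : C.Nonempty) (hK : ∀ c ∈ s, K c ⊆ C) {D' : Finset (Fin n)} {d : ℕ} (hd : 1 ≤ d)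
    (hD' : D'.card = d) (hsum : ∀ i ∈ D', ∑ c ∈ s, (pr (K c) i).card ≤ (pr C i).card) :
    ∑ c ∈ s, ((PP (K c) : ℝ)) ^ (1 / (d : ℝ)) ≤ (PP C : ℝ) ^ (1 / (d : ℝ)) := by
  classical
  have hd0 : (0 : ℝ) < d := by exact_mod_cast hd
  have hpos : ∀ i, (0 : ℝ) < (pr C i).card := fun i => by exact_mod_cast pr_pos hC i
  have h1 : ∀ c ∈ s, ((PP (K c) : ℝ)) ^ (1 / (d : ℝ)) ≤ (PP C : ℝ) ^ (1 / (d : ℝ)) *
      ∑ i ∈ D', (1 / (d : ℝ)) * ((pr (K c) i).card / (pr C i).card) := by
    intro c hc
    have h2 : (PP (K c) : ℝ) ≤ PP C * ∏ i ∈ D', (((pr (K c) i).card : ℝ) / (pr C i).card) := by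
      unfold PP
      push_cast
      have h3 : ∏ i ∈ D', (((pr (K c) i).card : ℝ) / (pr C i).card) =
          ∏ i, if i ∈ D' then (((pr (K c) i).card : ℝ) / (pr C i).card) else 1 := by
        rw [Finset.prod_ite_mem, Finset.univ_inter]
      rw [h3, ← Finset.prod_mul_distrib]
      refine Finset.prod_le_prod (fun i _ => Nat.cast_nonneg _) fun i _ => ?_
      split_ifs with h4
      · rw [mul_div_cancel₀ _ (hpos i).ne']
      · rw [mul_one]
        exact_mod_cast Finset.card_le_card (pr_mono (hK c hc) i)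
    have h3 : ∏ i ∈ D', (((pr (K c) i).card : ℝ) / (pr C i).card) ^ (1 / (d : ℝ)) ≤
        ∑ i ∈ D', (1 / (d : ℝ)) * ((pr (K c) i).card / (pr C i).card) := by
      refine Real.geom_mean_le_arith_mean_weighted D' (fun _ => 1 / (d : ℝ)) _
        (fun i _ => by positivity) ?_ (fun i _ => by positivity)
      rw [Finset.sum_const, hD', nsmul_eq_mul]
      field_simp
    calc ((PP (K c) : ℝ)) ^ (1 / (d : ℝ))
        ≤ (PP C * ∏ i ∈ D', (((pr (K c) i).card : ℝ) / (pr C i).card)) ^ (1 / (d : ℝ)) :=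
          Real.rpow_le_rpow (Nat.cast_nonneg _) h2 (by positivity)
      _ = (PP C : ℝ) ^ (1 / (d : ℝ)) *
          ∏ i ∈ D', (((pr (K c) i).card : ℝ) / (pr C i).card) ^ (1 / (d : ℝ)) := by
          rw [Real.mul_rpow (Nat.cast_nonneg _) (Finset.prod_nonneg fun i _ => by positivity),
            Real.finsetProd_rpow _ _ (fun i _ => by positivity)]
      _ ≤ _ := mul_le_mul_of_nonneg_left h3 (by positivity)
  refine (Finset.sum_le_sum h1).trans ?_
  rw [← Finset.mul_sum, Finset.sum_comm]
  have h2 : ∑ i ∈ D', ∑ c ∈ s, (1 / (d : ℝ)) * (((pr (K c) i).card : ℝ) / (pr C i).card) ≤ 1 := by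
    have h3 : ∀ i ∈ D', ∑ c ∈ s, (1 / (d : ℝ)) * (((pr (K c) i).card : ℝ) / (pr C i).card) ≤
        1 / (d : ℝ) := by
      intro i hi
      rw [← Finset.mul_sum, ← Finset.sum_div]
      have h4 : (∑ c ∈ s, ((pr (K c) i).card : ℝ)) / (pr C i).card ≤ 1 := by
        rw [div_le_one (hpos i)]
        exact_mod_cast hsum i hi
      calc 1 / (d : ℝ) * ((∑ c ∈ s, ((pr (K c) i).card : ℝ)) / (pr C i).card)
          ≤ 1 / (d : ℝ) * 1 := mul_le_mul_of_nonneg_left h4 (by positivity)
        _ = 1 / (d : ℝ) := mul_one _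
    refine (Finset.sum_le_sum h3).trans ?_
    rw [Finset.sum_const, hD', nsmul_eq_mul]
    apply le_of_eq
    field_simp
  calc _ ≤ (PP C : ℝ) ^ (1 / (d : ℝ)) * 1 := mul_le_mul_of_nonneg_left h2 (by positivity)
    _ = _ := mul_one _

/-- codes of length `m` -/
theorem card_le_maxCode [Fintype A] {m d : ℕ} (C : Finset (Fin m → A)) (h : MinDist C d) :
    C.card ≤ maxCode A m d := by
  unfold maxCode
  refine le_csSup ⟨Fintype.card (Fin m → A), ?_⟩ ⟨C, h, rfl⟩
  rintro _ ⟨C', -, rfl⟩
  exact Finset.card_le_univ C'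

/-- restriction to `T` -/
theorem card_le_restrict [Fintype A] {d : ℕ} (hd : 1 ≤ d) (T : Finset (Fin n))
    (C : Finset (Fin n → A)) (h : ∀ x ∈ C, ∀ y ∈ C, x ≠ y → d ≤ (dif x y ∩ T).card) :
    C.card ≤ maxCode A T.card d := by
  classical
  let e := T.equivFin
  let ρ : (Fin n → A) → (Fin T.card → A) := fun x k => x (e.symm k)
  have hdist : ∀ x y, hammingDist (ρ x) (ρ y) = (dif x y ∩ T).card := by
    intro x y
    unfold hammingDist
    refine Finset.card_bij (fun k _ => (e.symm k : Fin n)) ?_ ?_ ?_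
    · intro k hk
      rw [Finset.mem_filter] at hk
      rw [Finset.mem_inter, mem_dif]
      exact ⟨hk.2, (e.symm k).2⟩
    · intro k _ k' _ hkk
      exact e.symm.injective (Subtype.ext hkk)
    · intro i hi
      rw [Finset.mem_inter, mem_dif] at hi
      refine ⟨e ⟨i, hi.2⟩, ?_, ?_⟩
      · rw [Finset.mem_filter]
        refine ⟨Finset.mem_univ _, ?_⟩
        simp only [ρ, Equiv.symm_apply_apply]
        exact hi.1
      · simp
  have hinj : Set.InjOn ρ C := by
    intro x hx y hy hxy
    by_contra hne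
    have h1 := h x hx y hy hne
    rw [← hdist, hxy, hammingDist_self] at h1
    omega
  rw [← Finset.card_image_of_injOn hinj]
  refine card_le_maxCode _ ?_
  intro a ha b hb hab
  obtain ⟨x, hx, rfl⟩ := Finset.mem_image.1 ha
  obtain ⟨y, hy, rfl⟩ := Finset.mem_image.1 hb
  rw [hdist]
  exact h x hx y hy fun he => hab (by rw [he])

end count

/-- the claim -/
theorem claim {S : Sig} {A : Type} [Fintype A] [DecidableEq A] {n d : ℕ} {F : Fin n → Alg S A}
    {T : Finset (Fin n)} (hd : 1 ≤ d) (hI : ∀ i, Idem (F i))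
    (hab : ∀ i, i ∉ T → ∀ U : Set A, Closed (F i) U → U.Nontrivial → ¬ Abelian (F i) U)
    (N : ℕ) : ∀ C : Finset (Fin n → A), C.card = N → C.Nonempty →
    Closed (prodAlg F) (C : Set (Fin n → A)) → MinDist C d →
    (C.card : ℝ) ≤ (PP C : ℝ) ^ (1 / (d : ℝ)) * maxCode A T.card d := by
  classical
  induction N using Nat.strong_induction_on with
  | _ N ih =>
  intro C hCN hne hcl hmd
  have hP1 : (1 : ℝ) ≤ (PP C : ℝ) ^ (1 / (d : ℝ)) := by
    refine Real.one_le_rpow ?_ (by positivity)
    exact_mod_cast PP_pos hne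
  by_cases ha : ∀ x ∈ C, ∀ y ∈ C, x ≠ y → d ≤ (dif x y ∩ T).card
  · have h1 := card_le_restrict hd T C ha
    have h2 : (C.card : ℝ) ≤ maxCode A T.card d := by exact_mod_cast h1
    calc (C.card : ℝ) ≤ 1 * maxCode A T.card d := by rw [one_mul]; exact h2
      _ ≤ _ := mul_le_mul_of_nonneg_right hP1 (Nat.cast_nonneg _)
  push Not at ha
  obtain ⟨x, hx, y, hy, hxy, hlt⟩ := ha
  -- a minimal set of differences
  obtain ⟨uv, huv, hmin0⟩ := Finset.exists_min_image
    ((C ×ˢ C).filter fun q => q.1 ≠ q.2 ∧ dif q.1 q.2 ⊆ dif x y) (fun q => (dif q.1 q.2).card)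
    ⟨(x, y), by
      rw [Finset.mem_filter, Finset.mem_product]
      exact ⟨⟨hx, hy⟩, hxy, subset_rfl⟩⟩
  rw [Finset.mem_filter, Finset.mem_product] at huv
  obtain ⟨⟨hu, hv⟩, huvne, hsub⟩ := huv
  set D := dif uv.1 uv.2 with hD
  have hmin : ∀ x ∈ C, ∀ y ∈ C, x ≠ y → dif x y ⊆ D → dif x y = D := by
    intro x' hx' y' hy' hne' hs
    refine Finset.eq_of_subset_of_card_le hs ?_
    exact hmin0 (x', y') (by
      rw [Finset.mem_filter, Finset.mem_product]
      exact ⟨⟨hx', hy'⟩, hne', hs.trans hsub⟩)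
  have hDd : d ≤ D.card := hmd uv.1 hu uv.2 hv huvne
  obtain ⟨i0, hi0, hi0T⟩ : ∃ i ∈ D, i ∉ T := by
    by_contra hcon
    push Not at hcon
    have h1 : D ⊆ dif x y ∩ T := fun i hi => Finset.mem_inter.2 ⟨hsub hi, hcon i hi⟩
    have h2 := Finset.card_le_card h1
    omega
  have hDne : D.Nonempty := ⟨i0, hi0⟩
  obtain ⟨z0, hz0, w0, hw0, hzw⟩ := not_total hI hcl hmin hu hv hD.symm hi0 (hab i0 hi0T)
  -- the classes
  let s : Finset (Finset (Fin n → A)) := C.image (cls C D)
  have hs : ∀ K ∈ s, ∃ z ∈ C, K = cls C D z := by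
    intro K hK
    obtain ⟨z, hz, h1⟩ := Finset.mem_image.1 hK
    exact ⟨z, hz, h1.symm⟩
  have hself : ∀ z ∈ C, z ∈ cls C D z := fun z hz => mem_cls.2 ⟨hz, Relation.ReflTransGen.refl⟩
  have hKC : ∀ K ∈ s, K ⊆ C := by
    intro K hK a haK
    obtain ⟨z, hz, rfl⟩ := hs K hK
    exact (mem_cls.1 haK).1
  have hKlt : ∀ K ∈ s, K.card < C.card := by
    intro K hK
    refine Finset.card_lt_card ⟨hKC K hK, fun hsub' => ?_⟩
    obtain ⟨z, hz, rfl⟩ := hs K hK
    have h1 := (mem_cls.1 (hsub' hz0)).2
    have h2 := (mem_cls.1 (hsub' hw0)).2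
    exact hzw (mu_trans (mu_symm h1) h2)
  have hIH : ∀ K ∈ s, (K.card : ℝ) ≤ (PP K : ℝ) ^ (1 / (d : ℝ)) * maxCode A T.card d := by
    intro K hK
    obtain ⟨z, hz, hKz⟩ := hs K hK
    refine ih K.card (by rw [← hCN]; exact hKlt K hK) K rfl ?_ ?_ ?_
    · rw [hKz]; exact ⟨z, hself z hz⟩
    · rw [hKz]; exact cls_closed hI hDne hcl hz
    · intro a haK b hbK hab'
      exact hmd a (hKC K hK haK) b (hKC K hK hbK) hab'
  have hcard : (C.card : ℝ) = ∑ K ∈ s, (K.card : ℝ) := by
    have h1 : C.card = ∑ K ∈ s, (C.filter fun a => cls C D a = K).card :=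
      Finset.card_eq_sum_card_fiberwise fun a haC => Finset.mem_image_of_mem _ haC
    have h2 : ∀ K ∈ s, (C.filter fun a => cls C D a = K) = K := by
      intro K hK
      obtain ⟨z, hz, rfl⟩ := hs K hK
      ext a
      rw [Finset.mem_filter]
      constructor
      · rintro ⟨h3, h4⟩
        rw [← h4]
        exact hself a h3
      · intro h3
        exact ⟨(mem_cls.1 h3).1, (cls_eq (mem_cls.1 h3).2).symm⟩
    rw [h1]
    push_cast
    exact Finset.sum_congr rfl fun K hK => by rw [h2 K hK]
  obtain ⟨D', hD'D, hD'⟩ := Finset.exists_subset_card_eq hDd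
  have hest := sum_est s (fun K => K) C hne hKC hd hD' (fun i hi => by
    have hdisj : (s : Set (Finset (Fin n → A))).PairwiseDisjoint (fun K => pr K i) := by
      intro K hK K' hK' hKK
      rw [Function.onFun, Finset.disjoint_left]
      intro a haK haK'
      apply hKK
      obtain ⟨z, hz, rfl⟩ := hs K hK
      obtain ⟨z', hz', rfl⟩ := hs K' hK'
      obtain ⟨p, hp, h1⟩ := Finset.mem_image.1 haK
      obtain ⟨p', hp', h2⟩ := Finset.mem_image.1 haK'
      obtain ⟨hp1, hp2⟩ := mem_cls.1 hp
      obtain ⟨hp1', hp2'⟩ := mem_cls.1 hp'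
      have h3 : mu C D p p' := Relation.ReflTransGen.single
        ⟨hp1, hp1', i, hD'D hi, h1.trans h2.symm⟩
      exact cls_eq (mu_trans hp2 (mu_trans h3 (mu_symm hp2')))
    rw [← Finset.card_biUnion hdisj]
    refine Finset.card_le_card ?_
    rw [Finset.biUnion_subset]
    exact fun K hK => pr_mono (hKC K hK) i)
  rw [hcard]
  calc ∑ K ∈ s, (K.card : ℝ) ≤ ∑ K ∈ s, (PP K : ℝ) ^ (1 / (d : ℝ)) * maxCode A T.card d :=
        Finset.sum_le_sum hIH
    _ = (∑ K ∈ s, (PP K : ℝ) ^ (1 / (d : ℝ))) * maxCode A T.card d := by rw [Finset.sum_mul]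
    _ ≤ _ := mul_le_mul_of_nonneg_right hest (Nat.cast_nonneg _)

theorem upper : StmUpper := by
  intro S A _ _ n d F T C hd hI hab hcl hmd
  rcases C.eq_empty_or_nonempty with hC | hne
  · rw [hC, Finset.card_empty, zero_pow (by omega)]
    exact Nat.zero_le _
  have h1 := claim hd hI hab C.card C rfl hne hcl hmd
  have hd0 : (d : ℝ) ≠ 0 := by
    have : (0 : ℝ) < d := by exact_mod_cast hd
    exact this.ne'
  have h2 : ((C.card : ℝ)) ^ d ≤ (PP C : ℝ) * (maxCode A T.card d : ℝ) ^ d := by
    have h3 := pow_le_pow_left₀ (Nat.cast_nonneg _) h1 d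
    rw [mul_pow, ← Real.rpow_natCast, ← Real.rpow_natCast ((PP C : ℝ) ^ (1 / (d : ℝ))),
      ← Real.rpow_mul (Nat.cast_nonneg _), one_div_mul_cancel hd0, Real.rpow_one,
      Real.rpow_natCast] at h3
    exact h3
  have h3 : PP C ≤ Fintype.card A ^ n := by
    unfold PP
    have h4 := Finset.prod_le_pow_card Finset.univ (fun i : Fin n => (pr C i).card)
      (Fintype.card A) (fun i _ => Finset.card_le_univ _)
    simpa using h4
  have h4 : C.card ^ d ≤ PP C * maxCode A T.card d ^ d := by exact_mod_cast h2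
  exact h4.trans (Nat.mul_le_mul_right _ h3)

end Pool.Agent.Y220.PD

theorem Pool.Agent.Y220.PD.Upper.t : Pool.Agent.Y817.PD.StmUpper := Pool.Agent.Y220.PD.upper
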